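import Mathlib
import Pool.Agent.helper53.BND.SpecL

/-! Row bnd:LFP. -/

set_option autoImplicit false

open scoped Topology Matrix
open Filter Finset

namespace Pool.Agent.BND

open Pool.Agent.CZ Pool.Agent.PV

/-- equivalence of two idempotents with the same trace -/
theorem LFP_pair (hTRI : TRI_stmt) {κ μ : Type} [Fintype κ] [DecidableEq κ] [Fintype μ]
    [DecidableEq μ] (e : Matrix κ κ ℂ) (f : Matrix μ μ ℂ) (he : e * e = e) (hf : f * f = f)
    (ht : e.trace = f.trace) : ∃ (x : Matrix κ μ ℂ) (y : Matrix μ κ ℂ),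
    x * y = e ∧ y * x = f ∧ e * x = x ∧ f * y = y := by
  obtain ⟨r, a, b, h1, h2, h3⟩ := hTRI κ e he
  obtain ⟨r', a', b', h1', h2', h3'⟩ := hTRI μ f hf
  have hr : r = r' := by
    rw [h1, h1'] at ht
    exact_mod_cast ht
  subst hr
  refine ⟨a * b', a' * b, ?_, ?_, ?_, ?_⟩
  · calc a * b' * (a' * b) = a * (b' * a') * b := by simp only [Matrix.mul_assoc]
      _ = e := by rw [h3', Matrix.mul_one, h2]
  · calc a' * b * (a * b') = a' * (b * a) * b' := by simp only [Matrix.mul_assoc]
      _ = f := by rw [h3, Matrix.mul_one, h2']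
  · calc e * (a * b') = a * (b * a) * b' := by rw [← h2]; simp only [Matrix.mul_assoc]
      _ = a * b' := by rw [h3, Matrix.mul_one]
  · calc f * (a' * b) = a' * (b' * a') * b := by rw [← h2']; simp only [Matrix.mul_assoc]
      _ = a' * b := by rw [h3', Matrix.mul_one]

theorem LFP (hTRI : TRI_stmt) (hBEX : BEX_stmt) (hLFT : LFT_stmt) (hEME : EME_stmt)
    (hFLV : FLV_stmt) : LFP_stmt := by
  classical
  intro l hl κ μ _ _ _ _ E F hE hF hid
  obtain ⟨m1, m2, m3, _⟩ := hEME l hl
  have hFS : ∀ e s i, e < l.N → s ∈ U → i < l.h e → emb l e s i ∈ FS l :=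
    fun e s i he hs hi => ⟨e, s, i, he, hs, hi, rfl⟩
  have h0U : (0 : ℝ) ∈ U := ⟨le_refl _, zero_le_one⟩
  have h1U : (1 : ℝ) ∈ U := ⟨zero_le_one, le_refl _⟩
  -- the choice at the points
  have hch : ∀ p : Am, ∃ (x : Matrix κ μ ℂ) (y : Matrix μ κ ℂ), p ∈ FS l →
      x * y = E p ∧ y * x = F p ∧ E p * x = x ∧ F p * y = y := by
    intro p
    by_cases hp : p ∈ FS l
    · obtain ⟨h1, h2, h3⟩ := hid p hp
      obtain ⟨x, y, h⟩ := LFP_pair hTRI (E p) (F p) h1 h2 h3
      exact ⟨x, y, fun _ => h⟩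
    · exact ⟨0, 0, fun h => absurd h hp⟩
  choose xx yy hxy using hch
  -- the bands
  have hband : ∀ e i : ℕ, ∃ (X : C(unitInterval, Matrix κ μ ℂ)) (Y : C(unitInterval, Matrix μ κ ℂ)),
      e < l.N → i < l.h e → (X 0 = xx (emb l e 0 i) ∧ X 1 = xx (emb l e 1 i) ∧
        Y 0 = yy (emb l e 0 i) ∧ Y 1 = yy (emb l e 1 i) ∧
        ∀ s : unitInterval, X s * Y s = E (emb l e s i) ∧ Y s * X s = F (emb l e s i)) := by
    intro e i
    by_cases he : e < l.N ∧ i < l.h e
    · obtain ⟨he, hi⟩ := he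
      have hcont : Continuous fun s : unitInterval => emb l e (s : ℝ) i :=
        (m3 e i).comp continuous_subtype_val
      have hmem : ∀ s : unitInterval, emb l e (s : ℝ) i ∈ FS l :=
        fun s => hFS e s i he s.2 hi
      let E' : C(unitInterval, Matrix κ κ ℂ) := ⟨fun s => E (emb l e (s : ℝ) i),
        hE.comp_continuous hcont hmem⟩
      let F' : C(unitInterval, Matrix μ μ ℂ) := ⟨fun s => F (emb l e (s : ℝ) i),
        hF.comp_continuous hcont hmem⟩
      have a0 := hxy (emb l e 0 i) (hFS e 0 i he h0U hi)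
      have a1 := hxy (emb l e 1 i) (hFS e 1 i he h1U hi)
      have e0 : E' 0 = E (emb l e 0 i) := by
        rfl
      have e1 : E' 1 = E (emb l e 1 i) := by
        rfl
      have f0 : F' 0 = F (emb l e 0 i) := by
        rfl
      have f1 : F' 1 = F (emb l e 1 i) := by
        rfl
      obtain ⟨X, Y, hX0, hX1, hY0, hY1, hXY⟩ := hBEX κ μ E' F'
        (fun s => (hid _ (hmem s)).1) (fun s => (hid _ (hmem s)).2.1)
        (xx (emb l e 0 i)) (xx (emb l e 1 i)) (yy (emb l e 0 i)) (yy (emb l e 1 i))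
        (by rw [e0]; exact a0.1) (by rw [f0]; exact a0.2.1)
        (by rw [e1]; exact a1.1) (by rw [f1]; exact a1.2.1)
        (by rw [e0]; exact a0.2.2.1) (by rw [f0]; exact a0.2.2.2)
        (by rw [e1]; exact a1.2.2.1) (by rw [f1]; exact a1.2.2.2)
      exact ⟨X, Y, fun _ _ => ⟨hX0, hX1, hY0, hY1, hXY⟩⟩
    · exact ⟨0, 0, fun h1 h2 => absurd ⟨h1, h2⟩ he⟩
  choose X Y hXY using hband
  -- the family
  let g : ℕ → ℝ → ℕ → Matrix κ μ ℂ × Matrix μ κ ℂ := fun e s i =>
    if e < l.n then (xx (emb l e 0 i), yy (emb l e 0 i)) else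
      (X e i (Set.projIcc 0 1 zero_le_one s), Y e i (Set.projIcc 0 1 zero_le_one s))
  have hgv : ∀ e s i, e < l.n → g e s i = (xx (emb l e 0 i), yy (emb l e 0 i)) := by
    intro e s i he
    show (if e < l.n then (xx (emb l e 0 i), yy (emb l e 0 i)) else _) = _
    rw [if_pos he]
  have hgb : ∀ e s i, ¬ e < l.n → g e s i =
      (X e i (Set.projIcc 0 1 zero_le_one s), Y e i (Set.projIcc 0 1 zero_le_one s)) := by
    intro e s i he
    show (if e < l.n then (xx (emb l e 0 i), yy (emb l e 0 i)) else _) = _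
    rw [if_neg he]
  obtain ⟨f, hfc, hf⟩ := hLFT l hl (Matrix κ μ ℂ × Matrix μ κ ℂ) g
    (by
      intro e i he hi
      by_cases hv : e < l.n
      · have h1 : (fun s => g e s i) = fun _ => (xx (emb l e 0 i), yy (emb l e 0 i)) := by
          funext s
          exact hgv e s i hv
        rw [h1]
        exact continuousOn_const
      · have h1 : (fun s => g e s i) = fun s =>
            (X e i (Set.projIcc 0 1 zero_le_one s), Y e i (Set.projIcc 0 1 zero_le_one s)) := by
          funext s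
          exact hgb e s i hv
        rw [h1]
        exact (((X e i).continuous.comp continuous_projIcc).prodMk
          ((Y e i).continuous.comp continuous_projIcc)).continuousOn)
    (by
      intro e s i he _ _
      rw [hgv e s i he, hgv e 0 i he])
    (by
      intro e i b hne he hi
      have hflen : i < ((l.W e b).map l.h).sum := by
        rw [hl.ht e he b]
        exact hi
      obtain ⟨_, P, Q, hPQ, _⟩ := hFLV l.h (l.W e b) i hflen
      have hv : (fl l.h (l.W e b) i).1 < l.n := by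
        have hm : (fl l.h (l.W e b) i).1 ∈ P ++ (fl l.h (l.W e b) i).1 :: Q := by simp
        exact hl.mem e he b _ ((congrArg (fun L => (fl l.h (l.W e b) i).1 ∈ L) hPQ).mpr hm)
      have hnv : ¬ e < l.n := by omega
      have hemb := m1 e i b he hi
      rw [hgb e _ i hnv, hgv _ _ _ hv, ← hemb]
      obtain ⟨q0, q1, q2, q3, _⟩ := hXY e i he hi
      cases b
      · simp only [Bool.false_eq_true, if_false]
        rw [Set.projIcc_left]
        exact Prod.ext q0 q2
      · simp only [if_true]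
        rw [Set.projIcc_right]
        exact Prod.ext q1 q3)
  refine ⟨fun p => (f p).1, fun p => (f p).2, continuous_fst.comp_continuousOn hfc,
    continuous_snd.comp_continuousOn hfc, ?_⟩
  rintro p ⟨e, s, i, he, hs, hi, rfl⟩
  have hfe := hf e s i he hs hi
  show (f (emb l e s i)).1 * (f (emb l e s i)).2 = E (emb l e s i) ∧
    (f (emb l e s i)).2 * (f (emb l e s i)).1 = F (emb l e s i)
  rw [hfe]
  by_cases hv : e < l.n
  · rw [hgv e s i hv, m2 e s i hv]
    have a0 := hxy (emb l e 0 i) (hFS e 0 i he h0U hi)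
    exact ⟨a0.1, a0.2.1⟩
  · rw [hgb e s i hv, Set.projIcc_of_mem zero_le_one hs]
    obtain ⟨_, _, _, _, q⟩ := hXY e i he hi
    exact q ⟨s, hs⟩

end Pool.Agent.BND
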